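import Pool.Agent.H51.ERA.Stmts

/-! # Project ERA, module PIG: exponential beats polynomial -/

set_option autoImplicit false

namespace Pool.Agent.H64.ERA

open Pool.Agent.H51.ERA

theorem PIG_exp (c a : ℕ) : ∃ t, 1 ≤ t ∧ c * (t + 1) ^ a < 2 ^ t := by
  have h := tendsto_pow_const_div_const_pow_of_one_lt a (one_lt_two : (1 : ℝ) < 2)
  have h1 : ∀ᶠ n : ℕ in Filter.atTop, (n : ℝ) ^ a / 2 ^ n < 1 / (2 * ((c : ℝ) + 1)) :=
    h.eventually_lt_const (by positivity)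
  obtain ⟨n, hn, hn2⟩ := (h1.and (Filter.eventually_ge_atTop 2)).exists
  obtain ⟨t, rfl⟩ : ∃ t, n = t + 1 := ⟨n - 1, by omega⟩
  refine ⟨t, by omega, ?_⟩
  have hc : (0 : ℝ) < (c : ℝ) + 1 := by positivity
  rw [div_lt_div_iff₀ (by positivity) (by positivity), one_mul] at hn
  have h2 : (c : ℝ) * ((t + 1 : ℕ) : ℝ) ^ a < 2 ^ t := by
    have h3 : (0 : ℝ) ≤ ((t + 1 : ℕ) : ℝ) ^ a := by positivity
    have h4 : ((t + 1 : ℕ) : ℝ) ^ a * ((c : ℝ) + 1) < 2 ^ t := by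
      rw [pow_succ (2 : ℝ) t] at hn
      nlinarith
    nlinarith
  exact_mod_cast h2

theorem PIG_bound (s d : ℕ) : ∃ C : ℕ, ∀ t, Mb s t + d ≤ C * (t + 1) ^ 2 := by
  obtain ⟨A, hA⟩ : ∃ A : ℕ, ∀ t, gg s t + 1 ≤ A * (t + 1) := by
    refine ⟨2 * lam s + kk s + 7, fun t => ?_⟩
    unfold gg ll DD
    nlinarith [Nat.zero_le t, Nat.zero_le (lam s), Nat.zero_le (kk s),
      Nat.zero_le (lam s * t), Nat.zero_le (kk s * t)]
  refine ⟨2 * A + 1 + kk s * (2 * A) + ((2 * s + kk s) * 2 ^ (s + 1)) * (4 * A) + d, fun t => ?_⟩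
  have h1 : 1 ≤ (t + 1) ^ 2 := Nat.one_le_pow _ _ (by omega)
  have h2 : t + 1 ≤ (t + 1) ^ 2 := by nlinarith
  have e1 : nn s t ≤ 2 * A * (t + 1) ^ 2 := by
    unfold nn DD
    calc gg s t * (t + 1 + 1) ≤ (A * (t + 1)) * (2 * (t + 1)) :=
          Nat.mul_le_mul (by have := hA t; omega) (by omega)
      _ = 2 * A * (t + 1) ^ 2 := by ring
  have e2 : kk s * (2 * (gg s t + 1)) ≤ kk s * (2 * A) * (t + 1) ^ 2 := by
    calc kk s * (2 * (gg s t + 1)) ≤ kk s * (2 * (A * (t + 1))) :=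
          Nat.mul_le_mul_left _ (Nat.mul_le_mul_left _ (hA t))
      _ = kk s * (2 * A) * (t + 1) := by ring
      _ ≤ kk s * (2 * A) * (t + 1) ^ 2 := Nat.mul_le_mul_left _ h2
  have e3 : Ob s t ≤ (2 * s + kk s) * 2 ^ (s + 1) * (t + 1) := by
    unfold Ob DD
    have : s * (t + 1 + 1) + kk s ≤ (2 * s + kk s) * (t + 1) := by
      nlinarith [Nat.zero_le (s * t), Nat.zero_le (kk s * t)]
    calc (s * (t + 1 + 1) + kk s) * 2 ^ (s + 1) ≤ ((2 * s + kk s) * (t + 1)) * 2 ^ (s + 1) :=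
          Nat.mul_le_mul_right _ this
      _ = _ := by ring
  have e4 : Ob s t * (4 * (gg s t + 1)) ≤
      ((2 * s + kk s) * 2 ^ (s + 1)) * (4 * A) * (t + 1) ^ 2 := by
    calc Ob s t * (4 * (gg s t + 1)) ≤
          ((2 * s + kk s) * 2 ^ (s + 1) * (t + 1)) * (4 * (A * (t + 1))) :=
          Nat.mul_le_mul e3 (Nat.mul_le_mul_left _ (hA t))
      _ = _ := by ring
  have e5 : d ≤ d * (t + 1) ^ 2 := Nat.le_mul_of_pos_right d (by omega)
  unfold Mb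
  calc nn s t + 1 + kk s * (2 * (gg s t + 1)) + Ob s t * (4 * (gg s t + 1)) + d
      ≤ 2 * A * (t + 1) ^ 2 + (t + 1) ^ 2 + kk s * (2 * A) * (t + 1) ^ 2 +
        ((2 * s + kk s) * 2 ^ (s + 1)) * (4 * A) * (t + 1) ^ 2 + d * (t + 1) ^ 2 := by
        gcongr
    _ = _ := by ring

theorem PIG_thm : PIGStmt := by
  intro s c d a
  obtain ⟨C, hC⟩ := PIG_bound s d
  obtain ⟨t, ht, h⟩ := PIG_exp (c * C ^ a) (2 * a)
  refine ⟨t, ht, lt_of_le_of_lt ?_ h⟩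
  calc c * (Mb s t + d) ^ a ≤ c * (C * (t + 1) ^ 2) ^ a :=
        Nat.mul_le_mul_left _ (Nat.pow_le_pow_left (hC t) a)
    _ = c * C ^ a * (t + 1) ^ (2 * a) := by rw [mul_pow, ← pow_mul]; ring

end Pool.Agent.H64.ERA
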